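import Mathlib

/-!
# Connected components of closed sets in locally compact spaces
-/

namespace Pool.Agent.Helper73.Moore

open Set Topology

universe u

variable {X : Type u} [TopologicalSpace X]

/-- The set of points of `F` whose connected component in `F` is not compact. -/
def ncp (F : Set X) : Set X := {x | x ∈ F ∧ ¬ IsCompact (connectedComponentIn F x)}

theorem ncp_subset (F : Set X) : ncp F ⊆ F := fun _ hx => hx.1

theorem isClosed_comp {F : Set X} (hF : IsClosed F) (x : X) :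
    IsClosed (connectedComponentIn F x) := by
  by_cases hx : x ∈ F
  · have h1 : IsPreconnected (closure (connectedComponentIn F x)) :=
      isPreconnected_connectedComponentIn.closure
    have h2 : closure (connectedComponentIn F x) ⊆ F :=
      closure_minimal (connectedComponentIn_subset F x) hF
    have h3 := h1.subset_connectedComponentIn
      (subset_closure (mem_connectedComponentIn hx)) h2
    exact isClosed_of_closure_subset h3
  · rw [connectedComponentIn_eq_empty hx]
    exact isClosed_empty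

/-- A closed subset `B` of a compact set `K` missing the component of `x` in `K` can be
separated from `x` by a relatively clopen subset of `K`. -/
theorem exists_clopen [T2Space X] {K B : Set X} (hK : IsCompact K) (hB : IsClosed B)
    {x : X} (hx : x ∈ K) (hd : Disjoint (connectedComponentIn K x) B) :
    ∃ G : Set X, IsOpen G ∧ x ∈ G ∧ IsClosed (K ∩ G) ∧ Disjoint (K ∩ G) B := by
  have : CompactSpace K := isCompact_iff_compactSpace.1 hK
  let x' : K := ⟨x, hx⟩
  let B' : Set K := Subtype.val ⁻¹' B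
  have hB' : IsClosed B' := hB.preimage continuous_subtype_val
  have hdisj : (connectedComponent x') ∩ B' = ∅ := by
    rw [← Set.disjoint_iff_inter_eq_empty, Set.disjoint_left]
    intro y hy hyB
    refine Set.disjoint_left.1 hd ?_ hyB
    rw [connectedComponentIn_eq_image hx]
    exact ⟨y, hy, rfl⟩
  rw [connectedComponent_eq_iInter_isClopen] at hdisj
  have hcpt : IsCompact B' := hB'.isCompact
  have hdir : Directed (· ⊇ ·) (fun s : {s : Set K // IsClopen s ∧ x' ∈ s} => s.1) := by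
    intro a b
    exact ⟨⟨a.1 ∩ b.1, a.2.1.inter b.2.1, a.2.2, b.2.2⟩, inter_subset_left, inter_subset_right⟩
  have : Nonempty {s : Set K // IsClopen s ∧ x' ∈ s} := ⟨⟨univ, isClopen_univ, mem_univ _⟩⟩
  obtain ⟨⟨s, hs, hxs⟩, hsd⟩ := hcpt.elim_directed_family_closed
    (fun s : {s : Set K // IsClopen s ∧ x' ∈ s} => s.1) (fun s => s.2.1.1)
    (by rw [inter_comm]; exact hdisj) hdir
  obtain ⟨G, hG, hGs⟩ := isOpen_induced_iff.1 hs.2
  have hKG : K ∩ G = Subtype.val '' s := by
    rw [← hGs, Subtype.image_preimage_coe]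
  refine ⟨G, hG, ?_, ?_, ?_⟩
  · have : x' ∈ Subtype.val ⁻¹' G := by rw [hGs]; exact hxs
    exact this
  · rw [hKG]
    exact (hs.1.isCompact.image continuous_subtype_val).isClosed
  · rw [hKG, Set.disjoint_left]
    rintro _ ⟨y, hy, rfl⟩ hyB
    have : y ∈ B' ∩ s := ⟨hyB, hy⟩
    rw [hsd] at this
    exact this

/-- Boundary bumping for compact connected sets. -/
theorem bump_compact [T2Space X] {C A : Set X} (hC : IsCompact C) (hCc : IsPreconnected C)
    (hA : IsOpen A) {h : X} (hh : h ∈ C) (hhA : h ∉ A) (hne : (C ∩ A).Nonempty) :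
    ∃ y ∈ connectedComponentIn (C \ A) h, y ∈ closure (C ∩ A) := by
  by_contra hcon
  push Not at hcon
  have hK : IsCompact (C \ A) := hC.diff hA
  obtain ⟨G, hG, hhG, hcl, hd⟩ := exists_clopen hK (isClosed_closure (s := C ∩ A)) ⟨hh, hhA⟩
    (Set.disjoint_left.2 fun y hy => hcon y hy)
  obtain ⟨a, haC, haA⟩ := hne
  obtain ⟨c, hcC, ⟨hcG, hcA⟩, hcv⟩ := hCc (G ∩ (closure (C ∩ A))ᶜ) ((C \ A) ∩ G)ᶜ
    (hG.inter isClosed_closure.isOpen_compl) hcl.isOpen_compl
    (by
      intro c hc
      by_cases hcK : c ∈ (C \ A) ∩ G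
      · exact Or.inl ⟨hcK.2, fun h2 => Set.disjoint_left.1 hd hcK h2⟩
      · exact Or.inr hcK)
    ⟨h, hh, hhG, fun h2 => Set.disjoint_left.1 hd ⟨⟨hh, hhA⟩, hhG⟩ h2⟩
    ⟨a, haC, fun h2 => h2.1.2 haA⟩
  exact hcv ⟨⟨hcC, fun h2 => hcA (subset_closure ⟨hcC, h2⟩)⟩, hcG⟩

/-- Boundary bumping for closed noncompact connected sets. -/
theorem bump_noncompact [T2Space X] {C O : Set X} (hC : IsClosed C) (hCc : IsPreconnected C)
    (hnc : ¬ IsCompact C) (hO : IsOpen O) (hOc : IsCompact (closure O)) {x : X} (hx : x ∈ C)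
    (hxO : x ∈ O) :
    ∃ y ∈ connectedComponentIn (C ∩ closure O) x, y ∉ O := by
  by_contra hcon
  push Not at hcon
  have hK : IsCompact (C ∩ closure O) := hOc.inter_left hC
  have hxK : x ∈ C ∩ closure O := ⟨hx, subset_closure hxO⟩
  obtain ⟨G, hG, hxG, hcl, hd⟩ := exists_clopen hK hO.isClosed_compl hxK
    (Set.disjoint_left.2 fun y hy h2 => h2 (hcon y hy))
  have hne : (C ∩ ((C ∩ closure O) ∩ G)ᶜ).Nonempty := by
    by_contra hemp
    rw [Set.not_nonempty_iff_eq_empty] at hemp
    apply hnc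
    refine hK.of_isClosed_subset hC ?_
    intro c hc
    by_contra hcc
    have : c ∈ C ∩ ((C ∩ closure O) ∩ G)ᶜ := ⟨hc, fun h2 => hcc h2.1⟩
    rw [hemp] at this
    exact this
  obtain ⟨c, hcC, ⟨hcG, hcO⟩, hcv⟩ := hCc (G ∩ O) ((C ∩ closure O) ∩ G)ᶜ
    (hG.inter hO) hcl.isOpen_compl
    (by
      intro c hc
      by_cases hcK : c ∈ (C ∩ closure O) ∩ G
      · refine Or.inl ⟨hcK.2, ?_⟩
        by_contra h2
        exact Set.disjoint_left.1 hd hcK h2
      · exact Or.inr hcK)
    ⟨x, hx, hxG, hxO⟩ hne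
  exact hcv ⟨⟨hcC, subset_closure hcO⟩, hcG⟩

theorem comp_subset_of_closure {F O : Set X} (hO : IsOpen O) (hOF : closure O ∩ F ⊆ O)
    {y : X} (hy : y ∈ F) (hyO : y ∈ O) : connectedComponentIn F y ⊆ O := by
  refine isPreconnected_connectedComponentIn.subset_of_closure_inter_subset hO
    ⟨y, mem_connectedComponentIn hy, hyO⟩ ?_
  intro z hz
  exact hOF ⟨hz.1, connectedComponentIn_subset F y hz.2⟩

theorem comp_compact_of_closure {F O : Set X} (hF : IsClosed F) (hO : IsOpen O)
    (hOc : IsCompact (closure O)) (hOF : closure O ∩ F ⊆ O)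
    {y : X} (hy : y ∈ F) (hyO : y ∈ O) : IsCompact (connectedComponentIn F y) :=
  hOc.of_isClosed_subset (isClosed_comp hF y)
    ((comp_subset_of_closure hO hOF hy hyO).trans subset_closure)

/-- A compact component of a closed set has an open relatively compact neighbourhood whose
boundary misses the set. -/
theorem exists_nhd_compact [LocallyCompactSpace X] [T3Space X] {F : Set X} (hF : IsClosed F)
    {x : X} (hx : x ∈ F) (hc : IsCompact (connectedComponentIn F x)) :
    ∃ O : Set X, IsOpen O ∧ x ∈ O ∧ IsCompact (closure O) ∧ closure O ∩ F ⊆ O := by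
  obtain ⟨O1, hO1, hP, -, hO1c⟩ := exists_open_between_and_isCompact_closure hc isOpen_univ
    (subset_univ _)
  have hK : IsCompact (F ∩ closure O1) := hO1c.inter_left hF
  have hxO1 : x ∈ O1 := hP (mem_connectedComponentIn hx)
  have hxK : x ∈ F ∩ closure O1 := ⟨hx, subset_closure hxO1⟩
  obtain ⟨G, hG, hxG, hcl, hd⟩ := exists_clopen hK hO1.isClosed_compl hxK
    (Set.disjoint_left.2 fun y hy h2 => h2 (hP (connectedComponentIn_mono x inter_subset_left hy)))
  have hW : IsCompact ((F ∩ closure O1) ∩ G) := hK.of_isClosed_subset hcl inter_subset_left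
  have hW1 : (F ∩ closure O1) ∩ G ⊆ O1 := by
    intro y hy
    by_contra h2
    exact Set.disjoint_left.1 hd hy h2
  have hcl2 : IsClosed (F ∩ (O1 ∩ G)ᶜ) := hF.inter (hO1.inter hG).isClosed_compl
  obtain ⟨O, hO, hWO, hOU, hOc⟩ := exists_open_between_and_isCompact_closure hW
    hcl2.isOpen_compl (by
      intro y hy h2
      exact h2.2 ⟨hW1 hy, hy.2⟩)
  refine ⟨O, hO, hWO ⟨hxK, hxG⟩, hOc, ?_⟩
  intro y hy
  apply hWO
  have h1 := hOU hy.1
  by_contra h2
  apply h1
  refine ⟨hy.2, fun h3 => h2 ⟨⟨hy.2, subset_closure h3.1⟩, h3.2⟩⟩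

theorem isClosed_ncp [LocallyCompactSpace X] [T3Space X] {F : Set X} (hF : IsClosed F) :
    IsClosed (ncp F) := by
  rw [← isOpen_compl_iff, isOpen_iff_mem_nhds]
  intro x hx
  by_cases hxF : x ∈ F
  · have hc : IsCompact (connectedComponentIn F x) := by
      by_contra h2
      exact hx ⟨hxF, h2⟩
    obtain ⟨O, hO, hxO, hOc, hOF⟩ := exists_nhd_compact hF hxF hc
    filter_upwards [hO.mem_nhds hxO] with y hy hy2
    exact hy2.2 (comp_compact_of_closure hF hO hOc hOF hy2.1 hy)
  · filter_upwards [hF.isOpen_compl.mem_nhds hxF] with y hy hy2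
    exact hy hy2.1

theorem iInter_ncp_subset [LocallyCompactSpace X] [T3Space X] {F : ℕ → Set X}
    (hF : ∀ n, IsClosed (F n)) (hanti : Antitone F) :
    (⋂ n, ncp (F n)) ⊆ ncp (⋂ n, F n) := by
  intro x hx
  rw [mem_iInter] at hx
  have hxF : x ∈ ⋂ n, F n := mem_iInter.2 fun n => (hx n).1
  refine ⟨hxF, fun hc => ?_⟩
  obtain ⟨O, hO, hxO, hOc, hOF⟩ := exists_nhd_compact (isClosed_iInter hF) hxF hc
  have hfr : IsCompact (closure O \ O) := hOc.diff hO
  obtain ⟨n, hn⟩ := hfr.elim_directed_family_closed F hF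
    (by
      rw [← Set.not_nonempty_iff_eq_empty]
      rintro ⟨y, hy1, hy2⟩
      exact hy1.2 (hOF ⟨hy1.1, hy2⟩))
    (by
      intro a b
      exact ⟨max a b, hanti (le_max_left _ _), hanti (le_max_right _ _)⟩)
  apply (hx n).2
  refine comp_compact_of_closure (hF n) hO hOc ?_ (hx n).1 hxO
  intro y hy
  by_contra h2
  have : y ∈ (closure O \ O) ∩ F n := ⟨⟨hy.1, h2⟩, hy.2⟩
  rw [hn] at this
  exact this

theorem subset_ncp {F C : Set X} (hC : IsClosed C) (hCc : IsPreconnected C)
    (hnc : ¬ IsCompact C) (hCF : C ⊆ F) : C ⊆ ncp F := by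
  intro x hx
  refine ⟨hCF hx, fun hc => hnc ?_⟩
  exact hc.of_isClosed_subset hC (hCc.subset_connectedComponentIn hx hCF)

theorem ncp_diff_empty {Z V : Set X} (hZ : IsClosed Z) (hV : IsOpen V)
    (h : ∀ C, IsClosed C → IsPreconnected C → ¬ IsCompact C → C ⊆ Z → (C ∩ V).Nonempty) :
    ncp (Z \ V) = ∅ := by
  rw [Set.eq_empty_iff_forall_notMem]
  rintro x ⟨hx, hnc⟩
  have hcl : IsClosed (Z \ V) := hZ.sdiff hV
  obtain ⟨y, hy, hyV⟩ := h _ (isClosed_comp hcl x) isPreconnected_connectedComponentIn hnc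
    ((connectedComponentIn_subset _ x).trans sdiff_subset)
  exact (connectedComponentIn_subset _ x hy).2 hyV

end Pool.Agent.Helper73.Moore
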