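import Mathlib

/-!
# A root lemma for uncountable families of finite sets
-/

namespace Pool.Agent.Helper73.Moore

open Set

universe u v

/-- Root lemma: for an uncountable family of finite sets there is a finite set `R` contained
in uncountably many members such that every further element lies in only countably many of
these. -/
theorem exists_root {α : Type u} {ι : Type v} {H : Set α} (hH : ¬ H.Countable)
    (J : α → Set ι) (hJ : ∀ h ∈ H, (J h).Finite) :
    ∃ (R : Set ι) (H' : Set α), R.Finite ∧ H' ⊆ H ∧ ¬ H'.Countable ∧ (∀ h ∈ H', R ⊆ J h) ∧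
      ∀ j, j ∉ R → {h | h ∈ H' ∧ j ∈ J h}.Countable := by
  -- fix the cardinality
  have h1 : ∃ n, ¬ {h | h ∈ H ∧ (J h).ncard ≤ n}.Countable := by
    by_contra hcon
    push Not at hcon
    apply hH
    have : H = ⋃ n, {h | h ∈ H ∧ (J h).ncard ≤ n} := by
      ext h
      simp only [mem_iUnion, Set.mem_ofPred_eq]
      exact ⟨fun hh => ⟨_, hh, le_rfl⟩, fun ⟨n, hn⟩ => hn.1⟩
    rw [this]
    exact countable_iUnion hcon
  obtain ⟨n, hn⟩ := h1
  -- sizes of finite sets contained in uncountably many members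
  let P : ℕ → Prop := fun k => ∃ R : Set ι, R.Finite ∧ R.ncard = k ∧
    ¬ {h | h ∈ H ∧ (J h).ncard ≤ n ∧ R ⊆ J h}.Countable
  have hP0 : P 0 := by
    refine ⟨∅, finite_empty, ncard_empty _, ?_⟩
    simpa using hn
  have hPb : ∀ k, P k → k ≤ n := by
    rintro k ⟨R, hRf, hRk, hRc⟩
    by_contra hk
    apply hRc
    have : {h | h ∈ H ∧ (J h).ncard ≤ n ∧ R ⊆ J h} = ∅ := by
      rw [eq_empty_iff_forall_notMem]
      rintro h ⟨hh, h2, h3⟩
      have := ncard_le_ncard h3 (hJ h hh)
      omega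
    rw [this]
    exact countable_empty
  obtain ⟨k, hk, hmax⟩ : ∃ k, P k ∧ ∀ m, P m → m ≤ k := by
    classical
    have hb : ∃ k, k ≤ n ∧ P k := ⟨0, Nat.zero_le _, hP0⟩
    refine ⟨Nat.findGreatest P n, Nat.findGreatest_spec (Nat.zero_le n) hP0, ?_⟩
    intro m hm
    exact Nat.le_findGreatest (hPb m hm) hm
  obtain ⟨R, hRf, hRk, hRc⟩ := hk
  refine ⟨R, {h | h ∈ H ∧ (J h).ncard ≤ n ∧ R ⊆ J h}, hRf, fun h hh => hh.1, hRc,
    fun h hh => hh.2.2, ?_⟩
  · intro j hj
    by_contra hcon
    have : P (k + 1) := by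
      refine ⟨insert j R, hRf.insert j, ?_, ?_⟩
      · rw [ncard_insert_of_notMem hj hRf, hRk]
      · intro hc
        apply hcon
        refine hc.mono ?_
        rintro h ⟨⟨hh, h2, h3⟩, h4⟩
        exact ⟨hh, h2, insert_subset h4 h3⟩
    have := hmax _ this
    omega

end Pool.Agent.Helper73.Moore
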