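import Pool.Agent.Helper73.Moore.Good
import Pool.Agent.Helper73.Moore.Root

/-!
# The locally finite cover of the complement
-/

namespace Pool.Agent.Helper73.Moore

open Set Topology

universe u

variable {X : Type u} [TopologicalSpace X]

/-- A cover of `F \ N` by traces `F ∩ G i` with compact closures inside `F \ N`, locally
finite at the points of `F \ N`. -/
structure GoodCover (F N : Set X) (ι : Type u) where
  /-- the open sets -/
  G : ι → Set X
  isOpen : ∀ i, IsOpen (G i)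
  compact : ∀ i, IsCompact (closure (F ∩ G i))
  subset : ∀ i, closure (F ∩ G i) ⊆ F \ N
  cover : F \ N ⊆ ⋃ i, G i
  locFin : ∀ y ∈ F \ N, ∃ O, IsOpen O ∧ y ∈ O ∧ {i | ((F ∩ G i) ∩ O).Nonempty}.Finite

theorem exists_goodCover [LocallyCompactSpace X] [T3Space X] {F N : Set X} (hF : IsClosed F)
    (hN : IsClosed N) (hY : ParacompactSpace ↥(F \ N)) :
    Nonempty (GoodCover F N ↥(F \ N)) := by
  have h1 : ∀ y : ↥(F \ N), ∃ W : Set X, IsOpen W ∧ {y.1} ⊆ W ∧ closure W ⊆ Nᶜ ∧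
      IsCompact (closure W) := fun y =>
    exists_open_between_and_isCompact_closure isCompact_singleton hN.isOpen_compl
      (by
        rintro _ rfl
        exact y.2.2)
  choose W hWo hyW hWN hWc using h1
  obtain ⟨v, hvo, hvc, hvf, hvW⟩ := precise_refinement
    (fun y : ↥(F \ N) => (Subtype.val ⁻¹' (W y) : Set ↥(F \ N)))
    (fun y => (hWo y).preimage continuous_subtype_val)
    (by
      rw [eq_univ_iff_forall]
      intro y
      exact mem_iUnion.2 ⟨y, hyW y rfl⟩)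
  have h2 : ∀ y : ↥(F \ N), ∃ G : Set X, IsOpen G ∧ Subtype.val ⁻¹' G = v y := fun y =>
    isOpen_induced_iff.1 (hvo y)
  choose G' hG'o hG' using h2
  have hsub : ∀ i, F ∩ (G' i ∩ Nᶜ) ⊆ W i := by
    rintro i x ⟨hxF, hxG, hxN⟩
    have : (⟨x, hxF, hxN⟩ : ↥(F \ N)) ∈ v i := by
      rw [← hG']
      exact hxG
    exact hvW i this
  refine ⟨⟨fun i => G' i ∩ Nᶜ, fun i => (hG'o i).inter hN.isOpen_compl, ?_, ?_, ?_, ?_⟩⟩
  · intro i
    exact (hWc i).of_isClosed_subset isClosed_closure (closure_mono (hsub i))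
  · intro i x hx
    exact ⟨closure_minimal inter_subset_left hF hx, hWN i (closure_mono (hsub i) hx)⟩
  · intro x hx
    have : (⟨x, hx⟩ : ↥(F \ N)) ∈ ⋃ i, v i := by rw [hvc]; trivial
    obtain ⟨i, hi⟩ := mem_iUnion.1 this
    rw [← hG'] at hi
    exact mem_iUnion.2 ⟨i, hi, hx.2⟩
  · intro y hy
    obtain ⟨O', hO', hfin⟩ := hvf ⟨y, hy⟩
    obtain ⟨O'', hO''O', hO''o, hyO''⟩ := mem_nhds_iff.1 hO'
    obtain ⟨O, hO, rfl⟩ := isOpen_induced_iff.1 hO''o
    refine ⟨O, hO, hyO'', hfin.subset ?_⟩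
    rintro i ⟨x, ⟨hxF, hxG, hxN⟩, hxO⟩
    refine ⟨⟨x, hxF, hxN⟩, ?_, hO''O' hxO⟩
    rw [← hG']
    exact hxG

variable {F N : Set X} {ι : Type u}

theorem GoodCover.finite_of_compact (c : GoodCover F N ι) {K : Set X} (hK : IsCompact K)
    (hKY : K ⊆ F \ N) : {i | ((F ∩ c.G i) ∩ K).Nonempty}.Finite := by
  choose! O hO hyO hfin using c.locFin
  obtain ⟨t, htK, htf, ht⟩ := hK.elim_finite_subcover_image (b := K) (c := O)
    (fun y hy => hO y (hKY hy)) (fun y hy => mem_biUnion hy (hyO y (hKY hy)))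
  refine (htf.biUnion fun y hy => hfin y (hKY (htK hy))).subset ?_
  rintro i ⟨x, hx, hxK⟩
  obtain ⟨y, hy, hxO⟩ := mem_iUnion₂.1 (ht hxK)
  exact mem_biUnion hy ⟨x, hx, hxO⟩

theorem GoodCover.countable_of_compact (c : GoodCover F N ι) (hdev : Developable X)
    {K : Set X} (hK : IsCompact K) : {i | ((F ∩ c.G i) ∩ K).Nonempty}.Countable := by
  have hsc := hdev.secondCountable hK
  let Y : Set K := {x | x.1 ∈ F \ N}
  obtain ⟨E, hEc, hEd⟩ := TopologicalSpace.exists_countable_dense Y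
  refine (Set.Countable.biUnion hEc
    (t := fun e _ => {i | ((F ∩ c.G i) ∩ {e.1.1}).Nonempty}) (fun e _ => ?_)).mono ?_
  · refine (c.finite_of_compact isCompact_singleton ?_).countable
    rintro _ rfl
    exact e.2
  · rintro i ⟨x, ⟨hxF, hxG⟩, hxK⟩
    have hxN : x ∈ F \ N := c.subset i (subset_closure ⟨hxF, hxG⟩)
    have hop : IsOpen {y : Y | y.1.1 ∈ c.G i} :=
      (c.isOpen i).preimage (continuous_subtype_val.comp continuous_subtype_val)
    obtain ⟨e, he, heE⟩ := hEd.inter_open_nonempty _ hop ⟨⟨⟨x, hxK⟩, hxN⟩, hxG⟩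
    exact mem_biUnion heE ⟨e.1.1, ⟨e.2.1, he⟩, rfl⟩

end Pool.Agent.Helper73.Moore
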