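import Pool.Agent.Helper73.Moore.Touch

/-!
# Closed sets decreasing to the empty set that cut all noncompact connected closed sets
-/

namespace Pool.Agent.Helper73.Moore

open Set Topology

universe u

variable {X : Type u} [TopologicalSpace X] {F N : Set X} {ι : Type u}

/-- Two members of the cover are linked when a compact connected subset of `ncp F` meets
both. -/
def link (F : Set X) (G : ι → Set X) (i j : ι) : Prop :=
  ∃ Q, IsCompact Q ∧ IsPreconnected Q ∧ Q ⊆ ncp F ∧ (Q ∩ G i).Nonempty ∧ (Q ∩ G j).Nonempty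

theorem link_symm {G : ι → Set X} {i j : ι} (h : link F G i j) : link F G j i := by
  obtain ⟨Q, h1, h2, h3, h4, h5⟩ := h
  exact ⟨Q, h1, h2, h3, h5, h4⟩

theorem touch_link {G : ι → Set X} {i j : ι} {x : X} (hi : x ∈ touch F G i)
    (hj : x ∈ touch F G j) : link F G i j := by
  obtain ⟨hx, Q, hQc, hQp, hQF, hxQ, hQi⟩ := hi
  obtain ⟨-, Q', hQc', hQp', hQF', hxQ', hQj⟩ := hj
  refine ⟨Q ∪ Q', hQc.union hQc', hQp.union x hxQ hxQ' hQp', ?_, ?_, ?_⟩
  · exact union_subset (preconnected_subset_ncp hQp hQF hxQ hx)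
      (preconnected_subset_ncp hQp' hQF' hxQ' hx)
  · exact hQi.mono (inter_subset_inter_left _ subset_union_left)
  · exact hQj.mono (inter_subset_inter_left _ subset_union_right)

theorem touch_sigCov [LocallyCompactSpace X] [T3Space X] (hdev : Developable X)
    (c : GoodCover F N ι) (hF : IsClosed F) (hN : IsClosed N) (hN0 : ncp N = ∅) (i : ι) :
    ∃ W : ℕ → Set X, (∀ n, IsOpen (W n)) ∧ (∀ n, IsCompact (closure (W n))) ∧
      touch F c.G i ⊆ ⋃ n, W n := by
  have h1 : ∀ x : X, ∃ W : Set X, IsOpen W ∧ {x} ⊆ W ∧ closure W ⊆ univ ∧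
      IsCompact (closure W) := fun x =>
    exists_open_between_and_isCompact_closure isCompact_singleton isOpen_univ (subset_univ _)
  choose W hWo hxW hWu hWc using h1
  obtain ⟨C, hCc, hC⟩ := hdev.countable_cover (S := touch F c.G i)
    (fun H hHS hH => touch_countable hdev c hF hN hN0 i hHS hH) W hWo (fun x => hxW x rfl)
  rcases C.eq_empty_or_nonempty with rfl | hne
  · refine ⟨fun _ => ∅, fun _ => isOpen_empty, fun _ => by simp, ?_⟩
    intro x hx
    have := hC hx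
    simp at this
  · obtain ⟨f, rfl⟩ := hCc.exists_eq_range hne
    refine ⟨fun n => W (f n), fun n => hWo _, fun n => hWc _, ?_⟩
    intro x hx
    have := hC hx
    simpa using this

theorem link_countable [LocallyCompactSpace X] [T3Space X] (hdev : Developable X)
    (c : GoodCover F N ι) (hF : IsClosed F) (hN : IsClosed N) (hN0 : ncp N = ∅) (i : ι) :
    {j | link F c.G i j}.Countable := by
  obtain ⟨W, hWo, hWc, hW⟩ := touch_sigCov hdev c hF hN hN0 i
  have hc : ∀ n, {j | ((F ∩ c.G j) ∩ closure (W n)).Nonempty}.Countable := fun n =>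
    c.countable_of_compact hdev (hWc n)
  refine (countable_iUnion hc).mono ?_
  rintro j ⟨Q, hQc, hQp, hQF, hQi, ⟨z, hzQ, hzj⟩⟩
  have hz : z ∈ touch F c.G i :=
    ⟨hQF hzQ, Q, hQc, hQp, hQF.trans (ncp_subset F), hzQ, hQi⟩
  obtain ⟨n, hn⟩ := mem_iUnion.1 (hW hz)
  exact mem_iUnion.2 ⟨n, z, ⟨(hQF hzQ).1, hzj⟩, subset_closure hn⟩

theorem eqvGen_countable {r : ι → ι → Prop} (hs : ∀ i j, r i j → r j i)
    (hc : ∀ i, {j | r i j}.Countable) (i : ι) : {j | Relation.EqvGen r i j}.Countable := by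
  let T : ℕ → Set ι := fun n => Nat.rec {i} (fun _ S => S ∪ ⋃ j ∈ S, {k | r j k}) n
  have hT : ∀ n, (T n).Countable := by
    intro n
    induction n with
    | zero => exact countable_singleton i
    | succ n ih => exact ih.union (ih.biUnion fun j _ => hc j)
  have hstep : ∀ n j k, j ∈ T n → r j k → k ∈ T (n + 1) := fun n j k hj hr =>
    Or.inr (mem_biUnion hj hr)
  have hall : ∀ a b, Relation.EqvGen r a b → (a ∈ ⋃ n, T n ↔ b ∈ ⋃ n, T n) := by
    intro a b hab
    induction hab with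
    | rel a b hab =>
      constructor
      · intro ha
        obtain ⟨n, hn⟩ := mem_iUnion.1 ha
        exact mem_iUnion.2 ⟨n + 1, hstep n a b hn hab⟩
      · intro hb
        obtain ⟨n, hn⟩ := mem_iUnion.1 hb
        exact mem_iUnion.2 ⟨n + 1, hstep n b a hn (hs _ _ hab)⟩
    | refl a => exact Iff.rfl
    | symm a b _ ih => exact ih.symm
    | trans a b c _ _ ih1 ih2 => exact ih1.trans ih2
  refine (countable_iUnion hT).mono ?_
  intro j hj
  exact (hall i j hj).1 (mem_iUnion.2 ⟨0, rfl⟩)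

/-- The points of `ncp F` joined to a member of the class `κ`. -/
def classTouch (F : Set X) (G : ι → Set X) (κ : Quot (link F G)) : Set X :=
  ⋃ i ∈ {i | Quot.mk (link F G) i = κ}, touch F G i

theorem classTouch_unique {G : ι → Set X} {κ κ' : Quot (link F G)} {x : X}
    (h : x ∈ classTouch F G κ) (h' : x ∈ classTouch F G κ') : κ = κ' := by
  obtain ⟨i, hi, hxi⟩ := mem_iUnion₂.1 h
  obtain ⟨j, hj, hxj⟩ := mem_iUnion₂.1 h'
  rw [← hi, ← hj]
  exact Quot.sound (touch_link hxi hxj)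

/-- Every point of `ncp F` has a neighbourhood whose trace on `ncp F` is joined to a single
class. -/
theorem exists_class [LocallyCompactSpace X] [T3Space X]
    (c : GoodCover F N ι) (hF : IsClosed F) (hN : IsClosed N) (hN0 : ncp N = ∅) {x : X}
    (hx : x ∈ ncp F) :
    ∃ (κ : Quot (link F c.G)) (O : Set X), IsOpen O ∧ x ∈ O ∧
      O ∩ ncp F ⊆ classTouch F c.G κ := by
  obtain ⟨O, hO, hxO, hOc, hON⟩ := exists_nhd_point hN hN0 x
  have hK : IsCompact (F ∩ closure O) := hOc.inter_left hF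
  -- every point of `ncp F` in `O` is joined inside `F ∩ closure O` to the boundary
  have hjoin : ∀ z ∈ O ∩ ncp F, ∃ y ∈ connectedComponentIn (F ∩ closure O) z, y ∉ O := by
    rintro z ⟨hzO, hz⟩
    obtain ⟨y, hy, hyO⟩ := bump_noncompact (isClosed_comp hF z)
      isPreconnected_connectedComponentIn hz.2 hO hOc (mem_connectedComponentIn hz.1) hzO
    refine ⟨y, connectedComponentIn_mono z ?_ hy, hyO⟩
    exact inter_subset_inter_left _ (connectedComponentIn_subset F z)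
  have htouch : ∀ z ∈ ncp F, ∀ y ∈ connectedComponentIn (F ∩ closure O) z, ∀ j, y ∈ c.G j →
      z ∈ F ∩ closure O → z ∈ touch F c.G j := by
    intro z hz y hy j hj hzK
    refine ⟨hz, connectedComponentIn (F ∩ closure O) z, ?_, isPreconnected_connectedComponentIn,
      (connectedComponentIn_subset _ z).trans inter_subset_left, mem_connectedComponentIn hzK,
      ⟨y, hy, hj⟩⟩
    exact hK.of_isClosed_subset (isClosed_comp hK.isClosed z) (connectedComponentIn_subset _ z)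
  have hxK : x ∈ F ∩ closure O := ⟨hx.1, subset_closure hxO⟩
  have hbd : ∀ y ∈ F ∩ closure O, y ∉ O → ∃ j, y ∈ c.G j := by
    rintro y ⟨hyF, hyO⟩ hyO'
    have : y ∈ F \ N := ⟨hyF, fun hyN => hyO' (hON ⟨hyO, hyN⟩)⟩
    exact mem_iUnion.1 (c.cover this)
  obtain ⟨y0, hy0, hy0O⟩ := hjoin x ⟨hxO, hx⟩
  obtain ⟨i, hi⟩ := hbd y0 (connectedComponentIn_subset _ x hy0) hy0O
  let κ : Quot (link F c.G) := Quot.mk _ i
  have hxi : x ∈ touch F c.G i := htouch x hx y0 hy0 i hi hxK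
  let V : Set X := ⋃ j ∈ {j | Quot.mk (link F c.G) j = κ}, c.G j
  have hV : IsOpen V := isOpen_biUnion fun j _ => c.isOpen j
  have hB : IsClosed (((closure O \ O) ∩ F) \ V) :=
    ((isClosed_closure.sdiff hO).inter hF).sdiff hV
  obtain ⟨G, hG, hxG, hcl, hd⟩ := exists_clopen hK hB hxK (by
    rw [Set.disjoint_left]
    rintro y hy ⟨⟨hyO, hyF⟩, hyV⟩
    obtain ⟨j, hj⟩ := hbd y ⟨hyF, hyO.1⟩ hyO.2
    apply hyV
    refine mem_biUnion (x := j) ?_ hj
    have hxj : x ∈ touch F c.G j := htouch x hx y hy j hj hxK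
    exact (Quot.sound (touch_link hxi hxj)).symm)
  refine ⟨κ, G ∩ O, hG.inter hO, ⟨hxG, hxO⟩, ?_⟩
  rintro z ⟨⟨hzG, hzO⟩, hz⟩
  have hzK : z ∈ F ∩ closure O := ⟨hz.1, subset_closure hzO⟩
  obtain ⟨y, hy, hyO⟩ := hjoin z ⟨hzO, hz⟩
  have hsub : connectedComponentIn (F ∩ closure O) z ⊆ (F ∩ closure O) ∩ G := by
    intro w hw
    by_contra hwG
    obtain ⟨p, hp, hpG, hpv⟩ := (isPreconnected_connectedComponentIn
      (x := z) (F := F ∩ closure O)) G ((F ∩ closure O) ∩ G)ᶜ hG hcl.isOpen_compl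
      (by
        intro q hq
        by_cases hqG : q ∈ (F ∩ closure O) ∩ G
        · exact Or.inl hqG.2
        · exact Or.inr hqG)
      ⟨z, mem_connectedComponentIn hzK, hzG⟩ ⟨w, hw, hwG⟩
    exact hpv ⟨connectedComponentIn_subset _ _ hp, hpG⟩
  have hyK := connectedComponentIn_subset _ _ hy
  have hyV : y ∈ V := by
    by_contra hyV
    exact Set.disjoint_left.1 hd (hsub hy) ⟨⟨⟨hyK.2, hyO⟩, hyK.1⟩, hyV⟩
  obtain ⟨j, hj, hyj⟩ := mem_iUnion₂.1 hyV
  exact mem_biUnion hj (htouch z hz y hy j hyj hzK)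

/-- The cutting theorem. -/
theorem exists_cut [LocallyCompactSpace X] [T3Space X] (hdev : Developable X)
    {F N : Set X} (hF : IsClosed F) (hN : IsClosed N) (hN0 : ncp N = ∅)
    (hY : ParacompactSpace ↥(F \ N)) :
    ∃ D : ℕ → Set X, (∀ n, IsClosed (D n)) ∧ Antitone D ∧ (⋂ n, D n) = ∅ ∧
      ∀ C, IsClosed C → IsPreconnected C → ¬ IsCompact C → C ⊆ F → ∀ n, (C ∩ D n).Nonempty := by
  obtain ⟨c⟩ := exists_goodCover hF hN hY
  have hW : ∀ κ : Quot (link F c.G), ∃ W : ℕ → Set X, (∀ n, IsOpen (W n)) ∧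
      (∀ n, IsCompact (closure (W n))) ∧ Monotone W ∧ classTouch F c.G κ ⊆ ⋃ n, W n := by
    intro κ
    have hcount : {i | Quot.mk (link F c.G) i = κ}.Countable := by
      obtain ⟨i, rfl⟩ := Quot.exists_rep κ
      refine (eqvGen_countable (fun i j h => link_symm h)
        (fun i => link_countable hdev c hF hN hN0 i) i).mono ?_
      intro j hj
      exact (Relation.EqvGen.symm _ _ (Quot.eqvGen_exact hj))
    have h1 := fun i => touch_sigCov hdev c hF hN hN0 i
    choose W hWo hWc hW using h1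
    obtain ⟨f, hf⟩ : ∃ f : ℕ → ↥(F \ N), {i | Quot.mk (link F c.G) i = κ} ⊆ range f := by
      rcases ({i | Quot.mk (link F c.G) i = κ}).eq_empty_or_nonempty with he | hne
      · obtain ⟨i, rfl⟩ := Quot.exists_rep κ
        exact ⟨fun _ => i, by rw [he]; exact empty_subset _⟩
      · obtain ⟨f, hf⟩ := hcount.exists_eq_range hne
        exact ⟨f, hf.le⟩
    let W' : ℕ → Set X := fun k => W (f k.unpair.1) k.unpair.2
    refine ⟨fun n => ⋃ k ∈ {k | k ≤ n}, W' k, ?_, ?_, ?_, ?_⟩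
    · intro n
      exact isOpen_biUnion fun k _ => hWo _ _
    · intro n
      rw [(Set.finite_le_nat n).closure_biUnion]
      exact (Set.finite_le_nat n).isCompact_biUnion fun k _ => hWc _ _
    · intro a b hab x hx
      obtain ⟨k, hk, hxk⟩ := mem_iUnion₂.1 hx
      exact mem_biUnion (show k ≤ b from le_trans hk hab) hxk
    · intro x hx
      obtain ⟨i, hi, hxi⟩ := mem_iUnion₂.1 hx
      obtain ⟨m, hm⟩ := hf hi
      obtain ⟨n, hn⟩ := mem_iUnion.1 (hW i hxi)
      refine mem_iUnion.2 ⟨Nat.pair m n, mem_biUnion (x := Nat.pair m n)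
        (show Nat.pair m n ≤ Nat.pair m n from le_rfl) ?_⟩
      simp only [W', Nat.unpair_pair, hm]
      exact hn
  choose W hWo hWc hWm hW using hW
  let D : ℕ → Set X := fun n => {x | x ∈ ncp F ∧ ∃ κ, x ∈ classTouch F c.G κ ∧ x ∉ W κ n}
  have hcl := isClosed_ncp hF
  refine ⟨D, ?_, ?_, ?_, ?_⟩
  · intro n
    rw [← isOpen_compl_iff, isOpen_iff_mem_nhds]
    intro x hx
    by_cases hxF : x ∈ ncp F
    · obtain ⟨κ, O, hO, hxO, hOκ⟩ := exists_class c hF hN hN0 hxF
      have hxκ := hOκ ⟨hxO, hxF⟩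
      have hxW : x ∈ W κ n := by
        by_contra h
        exact hx ⟨hxF, κ, hxκ, h⟩
      filter_upwards [hO.mem_nhds hxO, (hWo κ n).mem_nhds hxW] with y hyO hyW hyD
      obtain ⟨hyF, κ', hyκ', hyW'⟩ := hyD
      have := classTouch_unique hyκ' (hOκ ⟨hyO, hyF⟩)
      subst this
      exact hyW' hyW
    · filter_upwards [hcl.isOpen_compl.mem_nhds hxF] with y hy hyD
      exact hy hyD.1
  · rintro a b hab x ⟨hxF, κ, hxκ, hxW⟩
    exact ⟨hxF, κ, hxκ, fun h => hxW (hWm κ hab h)⟩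
  · rw [eq_empty_iff_forall_notMem]
    intro x hx
    rw [mem_iInter] at hx
    obtain ⟨hxF, κ, hxκ, -⟩ := hx 0
    obtain ⟨n, hn⟩ := mem_iUnion.1 (hW κ hxκ)
    obtain ⟨-, κ', hxκ', hxW⟩ := hx n
    have := classTouch_unique hxκ' hxκ
    subst this
    exact hxW hn
  · intro C hC hCp hCnc hCF n
    have hCF' : C ⊆ ncp F := subset_ncp hC hCp hCnc hCF
    have hne : C.Nonempty := by
      rw [nonempty_iff_ne_empty]
      rintro rfl
      exact hCnc isCompact_empty
    obtain ⟨x0, hx0⟩ := hne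
    obtain ⟨κ, O0, hO0, hx0O, hO0κ⟩ := exists_class c hF hN hN0 (hCF' hx0)
    have hx0κ := hO0κ ⟨hx0O, hCF' hx0⟩
    have hCκ : C ⊆ classTouch F c.G κ := by
      intro z hz
      by_contra hzκ
      let u : Set X := ⋃₀ {O | IsOpen O ∧ O ∩ ncp F ⊆ classTouch F c.G κ}
      let v : Set X := ⋃₀ {O | IsOpen O ∧ ∃ κ', κ' ≠ κ ∧ O ∩ ncp F ⊆ classTouch F c.G κ'}
      have hu : IsOpen u := isOpen_sUnion fun O hO => hO.1
      have hv : IsOpen v := isOpen_sUnion fun O hO => hO.1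
      have hcov : C ⊆ u ∪ v := by
        intro w hw
        obtain ⟨κ', O, hO, hwO, hOκ'⟩ := exists_class c hF hN hN0 (hCF' hw)
        by_cases hk : κ' = κ
        · subst hk
          exact Or.inl ⟨O, ⟨hO, hOκ'⟩, hwO⟩
        · exact Or.inr ⟨O, ⟨hO, κ', hk, hOκ'⟩, hwO⟩
      have hzv : z ∈ v := by
        rcases hcov hz with hzu | hzv
        · obtain ⟨O, hO, hzO⟩ := hzu
          exact absurd (hO.2 ⟨hzO, hCF' hz⟩) hzκ
        · exact hzv
      obtain ⟨p, hpC, ⟨O, hO, hpO⟩, ⟨O', hO', hpO'⟩⟩ := hCp u v hu hv hcov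
        ⟨x0, hx0, O0, ⟨hO0, hO0κ⟩, hx0O⟩ ⟨z, hz, hzv⟩
      obtain ⟨hO'o, κ', hκ', hO'κ'⟩ := hO'
      exact hκ' (classTouch_unique (hO'κ' ⟨hpO', hCF' hpC⟩) (hO.2 ⟨hpO, hCF' hpC⟩))
    have : ∃ y ∈ C, y ∉ W κ n := by
      by_contra hcon
      push Not at hcon
      apply hCnc
      exact (hWc κ n).of_isClosed_subset hC (fun y hy => subset_closure (hcon y hy))
    obtain ⟨y, hy, hyW⟩ := this
    exact ⟨y, hy, hCF' hy, κ, hCκ hy, hyW⟩

end Pool.Agent.Helper73.Moore
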