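import Pool.Agent.Helper73.Moore.Comp

/-!
# Developments and countable paracompactness
-/

namespace Pool.Agent.Helper73.Moore

open Set Topology

universe u

/-- Countable paracompactness: every countable open cover has a locally finite open
shrinking. -/
def CountablyParacompact (X : Type u) [TopologicalSpace X] : Prop :=
  ∀ U : ℕ → Set X, (∀ n, IsOpen (U n)) → (⋃ n, U n) = Set.univ →
    ∃ V : ℕ → Set X, (∀ n, IsOpen (V n)) ∧ (∀ n, V n ⊆ U n) ∧
      (⋃ n, V n) = Set.univ ∧ LocallyFinite V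

/-- A development: a sequence of open covers whose stars at each point form a neighbourhood
base. -/
def Developable (X : Type u) [TopologicalSpace X] : Prop :=
  ∃ G : ℕ → Set (Set X),
    (∀ n, ∀ s ∈ G n, IsOpen s) ∧
    (∀ n, ⋃₀ G n = Set.univ) ∧
    ∀ x : X, ∀ W : Set X, IsOpen W → x ∈ W →
      ∃ n, ⋃₀ {s | s ∈ G n ∧ x ∈ s} ⊆ W

variable {X : Type u} [TopologicalSpace X]

/-- Decreasing closed sets with empty intersection expand to open sets with closures having
empty intersection. -/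
theorem CountablyParacompact.expand (h : CountablyParacompact X) {D : ℕ → Set X}
    (hD : ∀ n, IsClosed (D n)) (hanti : Antitone D) (hemp : ⋂ n, D n = ∅) :
    ∃ V : ℕ → Set X, (∀ n, IsOpen (V n)) ∧ Antitone V ∧ (∀ n, D n ⊆ V n) ∧
      ∀ x, ∃ n, x ∉ closure (V n) := by
  obtain ⟨V, hVo, hVU, hVc, hVf⟩ := h (fun n => (D n)ᶜ) (fun n => (hD n).isOpen_compl)
    (by
      rw [← compl_iInter, hemp, compl_empty])
  refine ⟨fun n => ⋃ m ∈ {m | n < m}, V m, ?_, ?_, ?_, ?_⟩
  · intro n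
    exact isOpen_biUnion fun m _ => hVo m
  · intro a b hab x hx
    simp only [mem_iUnion, Set.mem_ofPred_eq, exists_prop] at hx ⊢
    obtain ⟨m, hm, hx⟩ := hx
    exact ⟨m, lt_of_le_of_lt hab hm, hx⟩
  · intro n x hx
    have hx1 : x ∈ ⋃ n, V n := by rw [hVc]; trivial
    obtain ⟨m, hm⟩ := mem_iUnion.1 hx1
    simp only [mem_iUnion, Set.mem_ofPred_eq, exists_prop]
    refine ⟨m, ?_, hm⟩
    by_contra hle
    exact hVU m hm (hanti (not_lt.1 hle) hx)
  · intro x
    obtain ⟨O, hO, hfin⟩ := hVf x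
    obtain ⟨N, hN⟩ := hfin.bddAbove
    refine ⟨N, fun hcl => ?_⟩
    rw [mem_closure_iff_nhds] at hcl
    obtain ⟨y, hyO, hy⟩ := hcl O hO
    simp only [mem_iUnion, Set.mem_ofPred_eq, exists_prop] at hy
    obtain ⟨m, hm, hy⟩ := hy
    have := hN (show m ∈ {i | (V i ∩ O).Nonempty} from ⟨y, hy, hyO⟩)
    omega

/-- Compact subsets of a developable space are second countable. -/
theorem Developable.secondCountable (h : Developable X) {K : Set X} (hK : IsCompact K) :
    SecondCountableTopology K := by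
  obtain ⟨G, hGo, hGc, hG⟩ := h
  have hfin : ∀ n, ∃ t : Set (Set X), t ⊆ G n ∧ t.Finite ∧ K ⊆ ⋃₀ t := by
    intro n
    obtain ⟨t, ht⟩ := hK.elim_finite_subcover (fun s : G n => s.1) (fun s => hGo n s.1 s.2)
      (by
        intro x _
        have : x ∈ ⋃₀ G n := by rw [hGc]; trivial
        obtain ⟨s, hs, hx⟩ := this
        exact mem_iUnion.2 ⟨⟨s, hs⟩, hx⟩)
    refine ⟨Subtype.val '' (t : Set (G n)), ?_, t.finite_toSet.image _, ?_⟩
    · rintro _ ⟨s, -, rfl⟩
      exact s.2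
    · intro x hx
      have := ht hx
      simp only [mem_iUnion, exists_prop] at this
      obtain ⟨s, hs, hxs⟩ := this
      exact ⟨s.1, ⟨s, hs, rfl⟩, hxs⟩
  choose t htG htf htc using hfin
  let B : Set (Set K) := (fun s : Set X => (Subtype.val ⁻¹' s : Set K)) '' (⋃ n, t n)
  have hB : TopologicalSpace.IsTopologicalBasis B := by
    refine TopologicalSpace.isTopologicalBasis_of_isOpen_of_nhds ?_ ?_
    · rintro _ ⟨s, hs, rfl⟩
      obtain ⟨n, hn⟩ := mem_iUnion.1 hs
      exact (hGo n s (htG n hn)).preimage continuous_subtype_val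
    · intro a u hau hu
      obtain ⟨W, hW, rfl⟩ := isOpen_induced_iff.1 hu
      obtain ⟨n, hn⟩ := hG a.1 W hW hau
      obtain ⟨s, hs, has⟩ := htc n a.2
      refine ⟨_, ⟨s, mem_iUnion.2 ⟨n, hs⟩, rfl⟩, has, ?_⟩
      intro y hy
      exact hn ⟨s, ⟨htG n hs, has⟩, hy⟩
  have hBc : B.Countable := (countable_iUnion fun n => (htf n).countable).image _
  exact hB.secondCountableTopology hBc

/-- If every subset of `S` that is locally a subsingleton in `X` is countable, then `S` is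
covered by countably many members of any neighbourhood assignment. -/
theorem Developable.countable_cover (h : Developable X) {S : Set X}
    (hS : ∀ H ⊆ S, (∀ x, ∃ O, IsOpen O ∧ x ∈ O ∧ (O ∩ H).Subsingleton) → H.Countable)
    (W : X → Set X) (hWo : ∀ x, IsOpen (W x)) (hW : ∀ x, x ∈ W x) :
    ∃ C : Set X, C.Countable ∧ S ⊆ ⋃ c ∈ C, W c := by
  obtain ⟨G, hGo, hGc, hG⟩ := h
  have key : ∀ n, ∃ C : Set X, C.Countable ∧
      ∀ x ∈ S, (∃ y, ⋃₀ {s | s ∈ G n ∧ x ∈ s} ⊆ W y) → x ∈ ⋃ c ∈ C, W c := by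
    intro n
    let A : Set X := {x | x ∈ S ∧ ∃ y, ⋃₀ {s | s ∈ G n ∧ x ∈ s} ⊆ W y}
    let P : Set (Set X) := {H | H ⊆ A ∧ ∀ s ∈ G n, ∀ a ∈ H, ∀ b ∈ H, a ∈ s → b ∈ s → a = b}
    obtain ⟨H, hH⟩ : ∃ H, Maximal (· ∈ P) H := by
      refine zorn_subset P ?_
      intro c hc hchain
      refine ⟨⋃₀ c, ⟨?_, ?_⟩, fun s hs => subset_sUnion_of_mem hs⟩
      · exact sUnion_subset fun s hs => (hc hs).1
      · rintro s hs a ⟨p, hp, hap⟩ b ⟨q, hq, hbq⟩ has hbs
        rcases hchain.total hp hq with hpq | hpq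
        · exact (hc hq).2 s hs a (hpq hap) b hbq has hbs
        · exact (hc hp).2 s hs a hap b (hpq hbq) has hbs
    have hHA : H ⊆ A := hH.prop.1
    have hHc : H.Countable := by
      refine hS H (fun x hx => (hHA hx).1) ?_
      intro x
      have : x ∈ ⋃₀ G n := by rw [hGc]; trivial
      obtain ⟨s, hs, hxs⟩ := this
      exact ⟨s, hGo n s hs, hxs, fun a ha b hb => hH.prop.2 s hs a ha.2 b hb.2 ha.1 hb.1⟩
    choose! y hy using fun (x : X) (hx : x ∈ A) => hx.2
    refine ⟨y '' H, hHc.image _, ?_⟩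
    intro x hxS hx
    have hxA : x ∈ A := ⟨hxS, hx⟩
    by_cases hxH : x ∈ H
    · refine mem_biUnion (mem_image_of_mem y hxH) ?_
      have : x ∈ ⋃₀ G n := by rw [hGc]; trivial
      obtain ⟨s, hs, hxs⟩ := this
      exact hy x hxA ⟨s, ⟨hs, hxs⟩, hxs⟩
    · have hnot : ¬ (insert x H ∈ P) := by
        intro hP
        exact hxH (hH.le_of_ge hP (subset_insert _ _) (mem_insert _ _))
      have : ∃ s ∈ G n, ∃ b ∈ H, x ∈ s ∧ b ∈ s := by
        by_contra hcon
        push Not at hcon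
        apply hnot
        refine ⟨insert_subset hxA hHA, ?_⟩
        rintro s hs a (rfl | ha) b (rfl | hb) has hbs
        · rfl
        · exact absurd hbs (hcon s hs b hb has)
        · exact absurd has (hcon s hs a ha hbs)
        · exact hH.prop.2 s hs a ha b hb has hbs
      obtain ⟨s, hs, b, hb, hxs, hbs⟩ := this
      refine mem_biUnion (mem_image_of_mem y hb) ?_
      exact hy b (hHA hb) ⟨s, ⟨hs, hbs⟩, hxs⟩
  choose C hCc hC using key
  refine ⟨⋃ n, C n, countable_iUnion hCc, ?_⟩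
  intro x hx
  obtain ⟨n, hn⟩ := hG x (W x) (hWo x) (hW x)
  have := hC n x hx ⟨x, hn⟩
  simp only [mem_iUnion, exists_prop] at this ⊢
  obtain ⟨c, hc, hxc⟩ := this
  exact ⟨c, ⟨n, hc⟩, hxc⟩

end Pool.Agent.Helper73.Moore
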