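import Pool.Agent.Helper73.Moore.Dev

/-!
# Open sets whose components are covered by countably many compact sets
-/

namespace Pool.Agent.Helper73.Moore

open Set Topology

universe u

variable {X : Type u} [TopologicalSpace X]

/-- `U` is covered by countably many compact sets. -/
def SigCov (U : Set X) : Prop := ∃ K : ℕ → Set X, (∀ n, IsCompact (K n)) ∧ U ⊆ ⋃ n, K n

/-- Every component of `O` is covered by countably many compact sets. -/
def Good (O : Set X) : Prop := ∀ x ∈ O, SigCov (connectedComponentIn O x)

theorem SigCov.mono {U V : Set X} (h : SigCov V) (hUV : U ⊆ V) : SigCov U := by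
  obtain ⟨K, hK, hV⟩ := h
  exact ⟨K, hK, hUV.trans hV⟩

theorem SigCov.iUnion {U : ℕ → Set X} (h : ∀ n, SigCov (U n)) : SigCov (⋃ n, U n) := by
  choose K hK hU using h
  refine ⟨fun k => K k.unpair.1 k.unpair.2, fun k => hK _ _, ?_⟩
  intro x hx
  obtain ⟨n, hn⟩ := mem_iUnion.1 hx
  obtain ⟨m, hm⟩ := mem_iUnion.1 (hU n hn)
  refine mem_iUnion.2 ⟨Nat.pair n m, ?_⟩
  simpa using hm

theorem SigCov.of_empty : SigCov (∅ : Set X) :=
  ⟨fun _ => ∅, fun _ => isCompact_empty, empty_subset _⟩

theorem good_of_ncp_empty {Z : Set X} (hZ : ncp Z = ∅) : Good (interior Z) := by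
  intro x hx
  have hc : IsCompact (connectedComponentIn Z x) := by
    by_contra h
    have : x ∈ ncp Z := ⟨interior_subset hx, h⟩
    rw [hZ] at this
    exact this
  exact ⟨fun _ => connectedComponentIn Z x, fun _ => hc,
    (connectedComponentIn_mono x interior_subset).trans (subset_iUnion_of_subset 0 subset_rfl)⟩

theorem good_union [LocallyConnectedSpace X] {Z : Set X} {V : ℕ → Set X} (hanti : Antitone V)
    (hV : ∀ x, ∃ n, x ∉ closure (V n)) (hg : ∀ n, Good (interior (Z \ V n))) :
    Good (interior Z) := by
  intro x hx
  have hmem : ∀ y ∈ interior Z, ∃ n, y ∈ interior (Z \ V n) := by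
    intro y hy
    obtain ⟨n, hn⟩ := hV y
    refine ⟨n, ?_⟩
    have : IsOpen (interior Z ∩ (closure (V n))ᶜ) :=
      isOpen_interior.inter isClosed_closure.isOpen_compl
    have hsub : interior Z ∩ (closure (V n))ᶜ ⊆ Z \ V n := fun z hz =>
      ⟨interior_subset hz.1, fun h => hz.2 (subset_closure h)⟩
    exact interior_maximal hsub this ⟨hy, hn⟩
  have hmono : ∀ a b, a ≤ b → interior (Z \ V a) ⊆ interior (Z \ V b) := fun a b hab =>
    interior_mono (sdiff_subset_sdiff_right (hanti hab))
  have hsub : connectedComponentIn (interior Z) x ⊆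
      ⋃ n, connectedComponentIn (interior (Z \ V n)) x := by
    refine isPreconnected_connectedComponentIn.subset_of_closure_inter_subset
      (isOpen_iUnion fun n => isOpen_interior.connectedComponentIn) ?_ ?_
    · obtain ⟨n, hn⟩ := hmem x hx
      exact ⟨x, mem_connectedComponentIn hx, mem_iUnion.2 ⟨n, mem_connectedComponentIn hn⟩⟩
    · rintro y ⟨hy1, hy2⟩
      obtain ⟨m, hm⟩ := hmem y (connectedComponentIn_subset _ x hy2)
      have hQ : IsOpen (connectedComponentIn (interior (Z \ V m)) y) :=
        isOpen_interior.connectedComponentIn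
      obtain ⟨p, hpQ, hp⟩ := mem_closure_iff.1 hy1 _ hQ (mem_connectedComponentIn hm)
      obtain ⟨n, hn⟩ := mem_iUnion.1 hp
      have h1 : p ∈ connectedComponentIn (interior (Z \ V (max m n))) y :=
        connectedComponentIn_mono y (hmono _ _ (le_max_left _ _)) hpQ
      have h2 : p ∈ connectedComponentIn (interior (Z \ V (max m n))) x :=
        connectedComponentIn_mono x (hmono _ _ (le_max_right _ _)) hn
      refine mem_iUnion.2 ⟨max m n, ?_⟩
      rw [connectedComponentIn_eq h2, ← connectedComponentIn_eq h1]
      exact mem_connectedComponentIn (hmono _ _ (le_max_left _ _) hm)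
  refine SigCov.mono (SigCov.iUnion fun n => ?_) hsub
  by_cases hxn : x ∈ interior (Z \ V n)
  · exact hg n x hxn
  · rw [connectedComponentIn_eq_empty hxn]
    exact SigCov.of_empty

theorem secondCountable_of_sigCov [LocallyCompactSpace X] [T2Space X] (hdev : Developable X)
    {C : Set X} (hC : SigCov C) : SecondCountableTopology C := by
  obtain ⟨K, hK, hCK⟩ := hC
  have : ∀ n, ∃ L, IsCompact L ∧ K n ⊆ interior L := fun n => exists_compact_superset (hK n)
  choose L hL hKL using this
  let U : ℕ → Set C := fun n => {c | c.1 ∈ interior (L n)}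
  have hU : ∀ n, IsOpen (U n) := fun n => isOpen_interior.preimage continuous_subtype_val
  have hcov : ⋃ n, U n = univ := by
    rw [eq_univ_iff_forall]
    intro c
    obtain ⟨n, hn⟩ := mem_iUnion.1 (hCK c.2)
    exact mem_iUnion.2 ⟨n, hKL n hn⟩
  have hsc : ∀ n, SecondCountableTopology (U n) := by
    intro n
    have := hdev.secondCountable (hL n)
    let f : U n → L n := fun u => ⟨u.1.1, interior_subset u.2⟩
    have hf : IsInducing f := by
      have h1 : IsInducing ((Subtype.val : L n → X) ∘ f) :=
        (IsInducing.subtypeVal.comp IsInducing.subtypeVal : IsInducing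
          ((Subtype.val : C → X) ∘ (Subtype.val : U n → C)))
      exact (IsInducing.subtypeVal.of_comp_iff).1 h1
    exact hf.secondCountableTopology
  exact TopologicalSpace.secondCountableTopology_of_countable_cover hU hcov

theorem metrizable_of_good [LocallyCompactSpace X] [T3Space X] [LocallyConnectedSpace X]
    (hdev : Developable X) (h : Good (univ : Set X)) : TopologicalSpace.MetrizableSpace X := by
  have hm : ∀ c : ConnectedComponents X,
      TopologicalSpace.MetrizableSpace {y : X // (y : ConnectedComponents X) = c} := by
    intro c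
    obtain ⟨x, rfl⟩ := ConnectedComponents.surjective_coe c
    have h1 : SigCov {y : X | (y : ConnectedComponents X) = x} := by
      have h2 := h x (mem_univ x)
      rw [connectedComponentIn_univ] at h2
      refine h2.mono ?_
      intro y hy
      exact ConnectedComponents.coe_eq_coe'.1 hy
    have := secondCountable_of_sigCov hdev h1
    exact TopologicalSpace.metrizableSpace_of_t3_secondCountable
      {y : X | (y : ConnectedComponents X) = x}
  let _ : ∀ c : ConnectedComponents X, MetricSpace {y : X // (y : ConnectedComponents X) = c} :=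
    fun c => TopologicalSpace.metrizableSpaceMetric _
  let _ : MetricSpace (Σ c : ConnectedComponents X, {y : X // (y : ConnectedComponents X) = c}) :=
    Metric.Sigma.metricSpace
  let g : (Σ c : ConnectedComponents X, {y : X // (y : ConnectedComponents X) = c}) → X :=
    fun p => p.2.1
  have hgc : Continuous g := continuous_sigma fun c => continuous_subtype_val
  have hgo : IsOpenMap g := by
    refine isOpenMap_sigma.2 fun c => ?_
    have hop : IsOpen {y : X | (y : ConnectedComponents X) = c} := by
      obtain ⟨x, rfl⟩ := ConnectedComponents.surjective_coe c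
      have : {y : X | (y : ConnectedComponents X) = x} = connectedComponent x := by
        ext y
        exact ConnectedComponents.coe_eq_coe'
      rw [this]
      exact isOpen_connectedComponent
    exact hop.isOpenMap_subtype_val
  let e : (Σ c : ConnectedComponents X, {y : X // (y : ConnectedComponents X) = c}) ≃ X :=
    { toFun := g
      invFun := fun x => ⟨x, ⟨x, rfl⟩⟩
      left_inv := by
        rintro ⟨c, ⟨y, rfl⟩⟩
        rfl
      right_inv := fun x => rfl }
  exact (e.toHomeomorphOfContinuousOpen hgc hgo).symm.isEmbedding.metrizableSpace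

end Pool.Agent.Helper73.Moore
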