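import Pool.Agent.Helper73.Moore.Cut

/-!
# Layered closed sets and the metrization theorem
-/

namespace Pool.Agent.Helper73.Moore

open Set Topology

universe u

/-- The smallest family of subsets of `X` containing `X`, closed under passing from a member
`F` to a closed subset `F'` with `F \ F'` metrizable, and under countable intersections. -/
inductive Layered (X : Type u) [TopologicalSpace X] : Set X → Prop
  | univ : Layered X Set.univ
  | peel (F F' : Set X) : Layered X F → IsClosed F' → F' ⊆ F →
      TopologicalSpace.MetrizableSpace ↥(F \ F') → Layered X F'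
  | inter (F : ℕ → Set X) : (∀ n, Layered X (F n)) → Layered X (⋂ n, F n)

/-- The version with decreasing intersections only. -/
inductive LayeredD (X : Type u) [TopologicalSpace X] : Set X → Prop
  | univ : LayeredD X Set.univ
  | peel (F F' : Set X) : LayeredD X F → IsClosed F' → F' ⊆ F →
      TopologicalSpace.MetrizableSpace ↥(F \ F') → LayeredD X F'
  | inter (F : ℕ → Set X) : (∀ n, LayeredD X (F n)) → Antitone F → LayeredD X (⋂ n, F n)

variable {X : Type u} [TopologicalSpace X]

theorem LayeredD.isClosed {F : Set X} (h : LayeredD X F) : IsClosed F := by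
  induction h with
  | univ => exact isClosed_univ
  | peel F F' _ hF' _ _ _ => exact hF'
  | inter F _ _ ih => exact isClosed_iInter ih

theorem metrizable_mono {A B : Set X} (hAB : A ⊆ B)
    (hB : TopologicalSpace.MetrizableSpace ↥B) : TopologicalSpace.MetrizableSpace ↥A :=
  (Topology.IsEmbedding.inclusion hAB).metrizableSpace

theorem LayeredD.binter {F F' : Set X} (h : LayeredD X F) (h' : LayeredD X F') :
    LayeredD X (F ∩ F') := by
  induction h' with
  | univ => rwa [inter_univ]
  | peel G G' _ hG' hsub hm ih =>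
    refine LayeredD.peel (F ∩ G) (F ∩ G') ih (h.isClosed.inter hG')
      (inter_subset_inter_right F hsub) ?_
    refine metrizable_mono ?_ hm
    rintro x ⟨⟨h1, h2⟩, h3⟩
    exact ⟨h2, fun h4 => h3 ⟨h1, h4⟩⟩
  | inter G _ hanti ih =>
    rw [inter_iInter]
    exact LayeredD.inter _ ih fun a b hab => inter_subset_inter_right F (hanti hab)

theorem Layered.toD {F : Set X} (h : Layered X F) : LayeredD X F := by
  induction h with
  | univ => exact LayeredD.univ
  | peel F F' _ hF' hsub hm ih => exact LayeredD.peel F F' ih hF' hsub hm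
  | inter F _ ih =>
    have hP : ∀ n, LayeredD X (⋂ k ∈ {k | k ≤ n}, F k) := by
      intro n
      induction n with
      | zero =>
        have : (⋂ k ∈ {k | k ≤ 0}, F k) = F 0 := by
          ext x
          simp
        rw [this]
        exact ih 0
      | succ n ihn =>
        have : (⋂ k ∈ {k | k ≤ n + 1}, F k) = (⋂ k ∈ {k | k ≤ n}, F k) ∩ F (n + 1) := by
          ext x
          simp only [Set.mem_ofPred_eq, mem_iInter, mem_inter_iff]
          constructor
          · intro h
            exact ⟨fun k hk => h k (by omega), h (n + 1) le_rfl⟩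
          · rintro ⟨h1, h2⟩ k hk
            rcases Nat.lt_or_ge n k with h3 | h3
            · have : k = n + 1 := by omega
              subst this
              exact h2
            · exact h1 k h3
        rw [this]
        exact ihn.binter (ih _)
    have hEq : (⋂ n, F n) = ⋂ n, ⋂ k ∈ {k | k ≤ n}, F k := by
      ext x
      simp only [Set.mem_ofPred_eq, mem_iInter]
      exact ⟨fun h n k _ => h k, fun h n => h n n le_rfl⟩
    rw [hEq]
    refine LayeredD.inter _ hP ?_
    intro a b hab x hx
    simp only [Set.mem_ofPred_eq, mem_iInter] at hx ⊢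
    exact fun k hk => hx k (le_trans hk hab)

/-- The inductive property. -/
def Tame (F : Set X) : Prop :=
  ∀ Z, IsClosed Z → ncp (Z ∩ F) = ∅ → Good (interior Z)

theorem tame_peel [LocallyCompactSpace X] [T3Space X] [LocallyConnectedSpace X]
    (hcp : CountablyParacompact X) (hdev : Developable X) {F F' : Set X} (hF : IsClosed F)
    (hF' : IsClosed F') (hm : TopologicalSpace.MetrizableSpace ↥(F \ F'))
    (h : Tame F) : Tame F' := by
  intro Z hZ h0
  have hm' : TopologicalSpace.MetrizableSpace ↥((Z ∩ F) \ (Z ∩ F')) := by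
    refine metrizable_mono ?_ hm
    rintro x ⟨⟨h1, h2⟩, h3⟩
    exact ⟨h2, fun h4 => h3 ⟨h1, h4⟩⟩
  have hpc : ParacompactSpace ↥((Z ∩ F) \ (Z ∩ F')) := by
    let _ := TopologicalSpace.metrizableSpaceMetric ↥((Z ∩ F) \ (Z ∩ F'))
    infer_instance
  obtain ⟨D, hDc, hDa, hDe, hD⟩ := exists_cut hdev (hZ.inter hF) (hZ.inter hF') h0 hpc
  obtain ⟨V, hVo, hVa, hDV, hV⟩ := hcp.expand hDc hDa hDe
  refine good_union hVa hV fun n => h (Z \ V n) (hZ.sdiff (hVo n)) ?_
  have he : (Z \ V n) ∩ F = (Z ∩ F) \ V n := by
    ext x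
    constructor
    · rintro ⟨⟨h1, h2⟩, h3⟩
      exact ⟨⟨h1, h3⟩, h2⟩
    · rintro ⟨⟨h1, h3⟩, h2⟩
      exact ⟨⟨h1, h2⟩, h3⟩
  rw [he]
  exact ncp_diff_empty (hZ.inter hF) (hVo n) fun C hC hCp hCnc hCF =>
    (hD C hC hCp hCnc hCF n).mono (inter_subset_inter_right C (hDV n))

theorem tame_inter [LocallyCompactSpace X] [T3Space X] [LocallyConnectedSpace X]
    (hcp : CountablyParacompact X) {F : ℕ → Set X} (hF : ∀ n, IsClosed (F n))
    (hanti : Antitone F) (h : ∀ n, Tame (F n)) : Tame (⋂ n, F n) := by
  intro Z hZ h0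
  have hZF : ∀ n, IsClosed (Z ∩ F n) := fun n => hZ.inter (hF n)
  have hZa : Antitone fun n => Z ∩ F n := fun a b hab => inter_subset_inter_right Z (hanti hab)
  have hmono : Antitone fun n => ncp (Z ∩ F n) := by
    intro a b hab x hx
    refine ⟨hZa hab hx.1, fun hc => hx.2 ?_⟩
    exact hc.of_isClosed_subset (isClosed_comp (hZF b) x) (connectedComponentIn_mono x (hZa hab))
  have hemp : (⋂ n, ncp (Z ∩ F n)) = ∅ := by
    rw [← subset_empty_iff, ← h0, inter_iInter]
    exact iInter_ncp_subset hZF hZa
  obtain ⟨V, hVo, hVa, hDV, hV⟩ := hcp.expand (fun n => isClosed_ncp (hZF n)) hmono hemp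
  refine good_union hVa hV fun n => h n (Z \ V n) (hZ.sdiff (hVo n)) ?_
  have he : (Z \ V n) ∩ F n = (Z ∩ F n) \ V n := by
    ext x
    constructor
    · rintro ⟨⟨h1, h2⟩, h3⟩
      exact ⟨⟨h1, h3⟩, h2⟩
    · rintro ⟨⟨h1, h3⟩, h2⟩
      exact ⟨⟨h1, h2⟩, h3⟩
  rw [he]
  refine ncp_diff_empty (hZF n) (hVo n) fun C hC hCp hCnc hCF => ?_
  have hsub := (subset_ncp hC hCp hCnc hCF).trans (hDV n)
  have hne : C.Nonempty := by
    rw [nonempty_iff_ne_empty]
    rintro rfl
    exact hCnc isCompact_empty
  obtain ⟨x, hx⟩ := hne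
  exact ⟨x, hx, hsub hx⟩

theorem LayeredD.tame [LocallyCompactSpace X] [T3Space X] [LocallyConnectedSpace X]
    (hcp : CountablyParacompact X) (hdev : Developable X) {F : Set X} (h : LayeredD X F) :
    Tame F := by
  induction h with
  | univ =>
    intro Z hZ h0
    rw [inter_univ] at h0
    exact good_of_ncp_empty h0
  | peel F F' h hF' _ hm ih => exact tame_peel hcp hdev h.isClosed hF' hm ih
  | inter F h hanti ih => exact tame_inter hcp (fun n => (h n).isClosed) hanti ih

theorem metrizable_of_layered [LocallyCompactSpace X] [T3Space X] [LocallyConnectedSpace X]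
    (hcp : CountablyParacompact X) (hdev : Developable X) (h : Layered X ∅) :
    TopologicalSpace.MetrizableSpace X := by
  refine metrizable_of_good hdev ?_
  have h1 := h.toD.tame hcp hdev Set.univ isClosed_univ (by
    rw [inter_empty, eq_empty_iff_forall_notMem]
    rintro x ⟨hx, -⟩
    exact hx)
  rwa [interior_univ] at h1

theorem layered_of_open_cover {U : ℕ → Set X} (hU : ∀ n, IsOpen (U n))
    (hm : ∀ n, TopologicalSpace.MetrizableSpace ↥(U n)) (hc : (⋃ n, U n) = Set.univ) :
    Layered X ∅ := by
  have h1 : ∀ n, Layered X (U n)ᶜ := by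
    intro n
    refine Layered.peel Set.univ _ Layered.univ (hU n).isClosed_compl (subset_univ _) ?_
    refine metrizable_mono ?_ (hm n)
    rintro x ⟨-, hx⟩
    exact not_not.1 hx
  have h2 := Layered.inter _ h1
  rwa [← compl_iUnion, hc, compl_univ] at h2

theorem layered_of_closed {M : Set X} (hM : IsClosed M)
    (hm : TopologicalSpace.MetrizableSpace ↥M)
    (hm' : TopologicalSpace.MetrizableSpace ↥(Mᶜ)) : Layered X ∅ := by
  refine Layered.peel M ∅ (Layered.peel Set.univ M Layered.univ hM (subset_univ _) ?_)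
    isClosed_empty (empty_subset _) ?_
  · rwa [← compl_eq_univ_sdiff]
  · rwa [sdiff_empty]

end Pool.Agent.Helper73.Moore
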