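import Pool.Agent.Helper73.Moore.Cover

/-!
# Points joined to a member of the cover by a compact connected set
-/

namespace Pool.Agent.Helper73.Moore

open Set Topology

universe u

variable {X : Type u} [TopologicalSpace X]

theorem exists_nhd_point [LocallyCompactSpace X] [T3Space X] {N : Set X} (hN : IsClosed N)
    (hN0 : ncp N = ∅) (x : X) :
    ∃ O : Set X, IsOpen O ∧ x ∈ O ∧ IsCompact (closure O) ∧ closure O ∩ N ⊆ O := by
  by_cases hx : x ∈ N
  · have hc : IsCompact (connectedComponentIn N x) := by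
      by_contra h
      have : x ∈ ncp N := ⟨hx, h⟩
      rw [hN0] at this
      exact this
    exact exists_nhd_compact hN hx hc
  · obtain ⟨O, hO, hxO, hON, hOc⟩ := exists_open_between_and_isCompact_closure
      (isCompact_singleton (x := x)) hN.isOpen_compl (by
        rintro _ rfl
        exact hx)
    exact ⟨O, hO, hxO rfl, hOc, fun y hy => absurd hy.2 (hON hy.1)⟩

theorem exists_nhd_set [LocallyCompactSpace X] [T3Space X] {N : Set X} (hN : IsClosed N)
    (hN0 : ncp N = ∅) {Q : Set X} (hQ : IsCompact Q) :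
    ∃ O : Set X, IsOpen O ∧ Q ⊆ O ∧ IsCompact (closure O) ∧ closure O ∩ N ⊆ O := by
  choose O hO hxO hOc hON using exists_nhd_point hN hN0
  obtain ⟨t, htQ, htf, ht⟩ := hQ.elim_finite_subcover_image (b := Q) (c := O)
    (fun y _ => hO y) (fun y hy => mem_biUnion hy (hxO y))
  refine ⟨⋃ y ∈ t, O y, isOpen_biUnion fun y _ => hO y, ht, ?_, ?_⟩
  · rw [htf.closure_biUnion]
    exact htf.isCompact_biUnion fun y _ => hOc y
  · rw [htf.closure_biUnion]
    rintro y ⟨hy, hyN⟩
    obtain ⟨z, hz, hyz⟩ := mem_iUnion₂.1 hy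
    exact mem_biUnion hz (hON z ⟨hyz, hyN⟩)

/-- The points of `ncp F` joined inside `F` to the `i`-th member of the cover. -/
def touch (F : Set X) {ι : Type u} (G : ι → Set X) (i : ι) : Set X :=
  {x | x ∈ ncp F ∧ ∃ Q, IsCompact Q ∧ IsPreconnected Q ∧ Q ⊆ F ∧ x ∈ Q ∧ (Q ∩ G i).Nonempty}

theorem preconnected_subset_ncp {F Q : Set X} (hQ : IsPreconnected Q) (hQF : Q ⊆ F) {x : X}
    (hx : x ∈ Q) (hxF : x ∈ ncp F) : Q ⊆ ncp F := by
  intro y hy
  refine ⟨hQF hy, ?_⟩
  have : y ∈ connectedComponentIn F x := hQ.subset_connectedComponentIn hx hQF hy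
  rw [← connectedComponentIn_eq this]
  exact hxF.2

/-- A locally subsingleton subset of a compact set is finite. -/
theorem finite_of_locally_subsingleton {H K : Set X} (hK : IsCompact K)
    (hH : ∀ x, ∃ O, IsOpen O ∧ x ∈ O ∧ (O ∩ H).Subsingleton) : (H ∩ K).Finite := by
  choose O hO hxO hOH using hH
  obtain ⟨t, htK, htf, ht⟩ := hK.elim_finite_subcover_image (b := K) (c := O)
    (fun y _ => hO y) (fun y hy => mem_biUnion hy (hxO y))
  refine (htf.biUnion fun y _ => (hOH y).finite).subset ?_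
  rintro h ⟨hh, hhK⟩
  obtain ⟨y, hy, hhy⟩ := mem_iUnion₂.1 (ht hhK)
  exact mem_biUnion hy ⟨hhy, hh⟩

variable {F N : Set X} {ι : Type u}

theorem touch_countable [LocallyCompactSpace X] [T3Space X] (hdev : Developable X)
    (c : GoodCover F N ι) (hF : IsClosed F) (hN : IsClosed N) (hN0 : ncp N = ∅) (i : ι)
    {H : Set X} (hHS : H ⊆ touch F c.G i)
    (hH : ∀ x, ∃ O, IsOpen O ∧ x ∈ O ∧ (O ∩ H).Subsingleton) : H.Countable := by
  by_contra hunc
  -- the continua
  choose! Q hQc hQp hQF hxQ hQi using fun (x : X) (hx : x ∈ H) => (hHS hx).2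
  choose! O hOo hQO hOc hON using fun (x : X) (hx : x ∈ H) => exists_nhd_set hN hN0 (hQc x hx)
  let K : X → Set X := fun h => (closure (O h) \ O h) ∩ F
  have hK : ∀ h ∈ H, IsCompact (K h) := fun h hh => ((hOc h hh).diff (hOo h hh)).inter_right hF
  have hKY : ∀ h ∈ H, K h ⊆ F \ N := by
    rintro h hh x ⟨⟨hx1, hx2⟩, hxF⟩
    exact ⟨hxF, fun hxN => hx2 (hON h hh ⟨hx1, hxN⟩)⟩
  let J : X → Set ι := fun h => insert i {j | ((F ∩ c.G j) ∩ K h).Nonempty}
  have hJ : ∀ h ∈ H, (J h).Finite := fun h hh =>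
    (c.finite_of_compact (hK h hh) (hKY h hh)).insert i
  obtain ⟨R, H', hRf, hH'H, hH'u, hRJ, hroot⟩ := exists_root hunc J hJ
  have hiR : i ∈ R := by
    by_contra hi
    apply hH'u
    refine (hroot i hi).mono ?_
    intro h hh
    exact ⟨hh, mem_insert _ _⟩
  -- the open set of the root
  let A : Set X := ⋃ j ∈ R, c.G j
  have hA : IsOpen A := isOpen_biUnion fun j _ => c.isOpen j
  let L : Set X := ⋃ j ∈ R, closure (F ∩ c.G j)
  have hL : IsCompact L := hRf.isCompact_biUnion fun j _ => c.compact j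
  have hAL : F ∩ A ⊆ L := by
    rintro x ⟨hxF, hxA⟩
    obtain ⟨j, hj, hxj⟩ := mem_iUnion₂.1 hxA
    exact mem_biUnion hj (subset_closure ⟨hxF, hxj⟩)
  have hLcl : IsClosed L := hL.isClosed
  have hfinL : (H ∩ L).Finite := finite_of_locally_subsingleton hL hH
  let H1 : Set X := H' \ L
  have hH1u : ¬ H1.Countable := by
    intro hc
    apply hH'u
    have : H' ⊆ H1 ∪ (H ∩ L) := by
      intro h hh
      by_cases hhL : h ∈ L
      · exact Or.inr ⟨hH'H hh, hhL⟩
      · exact Or.inl ⟨hh, hhL⟩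
    exact (hc.union hfinL.countable).mono this
  have hH1H : ∀ h ∈ H1, h ∈ H := fun h hh => hH'H hh.1
  -- the points y
  have hy : ∀ h ∈ H1, ∃ y ∈ connectedComponentIn (Q h \ A) h, y ∈ L := by
    intro h hh
    have hhH := hH1H h hh
    have hhA : h ∉ A := fun h2 => hh.2 (hAL ⟨hQF h hhH (hxQ h hhH), h2⟩)
    obtain ⟨y, hy1, hy2⟩ := bump_compact (hQc h hhH) (hQp h hhH) hA (hxQ h hhH) hhA (by
      obtain ⟨z, hz1, hz2⟩ := hQi h hhH
      exact ⟨z, hz1, mem_biUnion hiR hz2⟩)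
    refine ⟨y, hy1, ?_⟩
    refine closure_minimal ?_ hLcl hy2
    rintro z ⟨hz1, hz2⟩
    exact hAL ⟨hQF h hhH hz1, hz2⟩
  choose! y hyP hyL using hy
  -- second countability of L
  have hsc := hdev.secondCountable hL
  let 𝓑 := TopologicalSpace.countableBasis L
  have hB : ∀ h ∈ H1, ∃ B ∈ 𝓑, ∃ hy : y h ∈ L, (⟨y h, hy⟩ : L) ∈ B ∧
      B ⊆ (Subtype.val ⁻¹' (O h) : Set L) := by
    intro h hh
    have hhH := hH1H h hh
    have hyO : y h ∈ O h := by
      apply hQO h hhH
      exact (connectedComponentIn_subset _ _ (hyP h hh)).1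
    have := (TopologicalSpace.isBasis_countableBasis L).exists_subset_of_mem_open
      (a := ⟨y h, hyL h hh⟩) (u := Subtype.val ⁻¹' (O h)) hyO
      ((hOo h hhH).preimage continuous_subtype_val)
    obtain ⟨B, hB1, hB2, hB3⟩ := this
    exact ⟨B, hB1, hyL h hh, hB2, hB3⟩
  choose! B hB𝓑 hyL' hyB hBO using hB
  obtain ⟨B0, hB0⟩ : ∃ B0, ¬ {h | h ∈ H1 ∧ B h = B0}.Countable := by
    by_contra hcon
    push Not at hcon
    apply hH1u
    have : H1 ⊆ ⋃ B0 ∈ 𝓑, {h | h ∈ H1 ∧ B h = B0} := by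
      intro h hh
      exact mem_biUnion (hB𝓑 h hh) ⟨hh, rfl⟩
    exact ((TopologicalSpace.countable_countableBasis L).biUnion fun B0 _ => hcon B0).mono this
  let H2 : Set X := {h | h ∈ H1 ∧ B h = B0}
  have hH2inf : H2.Infinite := fun hf => hB0 hf.countable
  obtain ⟨H0, hH0H2, hH0inf, hH0c⟩ : ∃ H0 ⊆ H2, H0.Infinite ∧ H0.Countable := by
    refine ⟨Set.range fun n => (hH2inf.natEmbedding H2 n : X), ?_, ?_, countable_range _⟩
    · rintro _ ⟨n, rfl⟩
      exact (hH2inf.natEmbedding H2 n).2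
    · apply Set.infinite_range_of_injective
      intro a b hab
      exact (hH2inf.natEmbedding H2).injective (Subtype.ext hab)
  obtain ⟨h', hh', hH3⟩ : ∃ h' ∈ H0, ¬ {h | h ∈ H2 ∧ h' ∉ O h}.Countable := by
    by_contra hcon
    push Not at hcon
    apply hB0
    have : H2 ⊆ ⋃ h' ∈ H0, {h | h ∈ H2 ∧ h' ∉ O h} := by
      intro h hh
      have hhH := hH1H h hh.1
      have hfin : (H ∩ closure (O h)).Finite := finite_of_locally_subsingleton (hOc h hhH) hH
      have : ∃ h' ∈ H0, h' ∉ O h := by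
        by_contra hall
        push Not at hall
        apply hH0inf
        refine hfin.subset ?_
        intro k hk
        exact ⟨hH1H k (hH0H2 hk).1, subset_closure (hall k hk)⟩
      obtain ⟨k, hk, hkO⟩ := this
      exact mem_biUnion hk ⟨hh, hkO⟩
    exact (hH0c.biUnion fun k hk => hcon k hk).mono this
  have hh'2 : h' ∈ H2 := hH0H2 hh'
  have hh'H : h' ∈ H := hH1H h' hh'2.1
  apply hH3
  have hcount : {j | ((F ∩ c.G j) ∩ Q h').Nonempty}.Countable :=
    c.countable_of_compact hdev (hQc h' hh'H)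
  have hsub : {h | h ∈ H2 ∧ h' ∉ O h} ⊆
      ⋃ j ∈ {j | ((F ∩ c.G j) ∩ Q h').Nonempty} \ R, {h | h ∈ H' ∧ j ∈ J h} := by
    rintro h ⟨hh, hh'O⟩
    have hhH := hH1H h hh.1
    have hyO : y h' ∈ O h := by
      have h1 : (⟨y h', hyL' h' hh'2.1⟩ : L) ∈ B h := by
        have e : B h = B h' := hh.2.trans hh'2.2.symm
        rw [e]
        exact hyB h' hh'2.1
      exact hBO h hh.1 h1
    have hmeet : ∃ z ∈ connectedComponentIn (Q h' \ A) h', z ∈ closure (O h) \ O h := by
      by_contra hcon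
      push Not at hcon
      have hsubO : connectedComponentIn (Q h' \ A) h' ⊆ O h := by
        refine isPreconnected_connectedComponentIn.subset_of_closure_inter_subset (hOo h hhH)
          ⟨y h', hyP h' hh'2.1, hyO⟩ ?_
        rintro z ⟨hz1, hz2⟩
        by_contra hz3
        exact hcon z hz2 ⟨hz1, hz3⟩
      apply hh'O
      apply hsubO
      apply mem_connectedComponentIn
      refine ⟨hxQ h' hh'H, fun h2 => hh'2.1.2 (hAL ⟨hQF h' hh'H (hxQ h' hh'H), h2⟩)⟩
    obtain ⟨z, hzP, hzO⟩ := hmeet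
    have hzQ := connectedComponentIn_subset _ _ hzP
    have hzF : z ∈ F := hQF h' hh'H hzQ.1
    have hzK : z ∈ K h := ⟨hzO, hzF⟩
    obtain ⟨j, hj⟩ := mem_iUnion.1 (c.cover (hKY h hhH hzK))
    have hjR : j ∉ R := fun hjR => hzQ.2 (mem_biUnion hjR hj)
    refine mem_biUnion (x := j) ⟨⟨z, ⟨hzF, hj⟩, hzQ.1⟩, hjR⟩ ⟨hh.1.1, ?_⟩
    exact mem_insert_of_mem _ ⟨z, ⟨hzF, hj⟩, hzK⟩
  exact ((hcount.mono sdiff_subset).biUnion fun j hj => hroot j hj.2).mono hsub

end Pool.Agent.Helper73.Moore
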